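import Pool.Agent.Lib.MP_bba460_co.LenMain

set_option autoImplicit false

namespace Pool.Agent.Results.MP_bba460_co.AllLengthSets

open Pool.Agent.Lib.MP_bba460_co Pointwise

/-- For every submonoid `H` of `ℕ` other than `{0}` and every non-empty finite set `L` of integers
at least 2 there is a finite subset `X` of `H` containing `0` that is a sumset of exactly `k` atoms
if and only if `k` lies in `L`. -/
theorem result (H : AddSubmonoid ℕ) (hH : ∃ a ∈ H, a ≠ 0) (L : Finset ℕ) (hL : L.Nonempty)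
    (h2 : ∀ l ∈ L, 2 ≤ l) :
    ∃ X : Finset ℕ, 0 ∈ X ∧ (∀ x ∈ X, x ∈ H) ∧ ∀ k : ℕ, k ∈ L ↔
      ∃ s : List (Finset ℕ), (∀ A ∈ s, IsAtom H A) ∧ s.sum = X ∧ s.length = k := by
  obtain ⟨a, ha, a0⟩ := hH
  obtain ⟨X, x1, x2, x3, x4⟩ := Len.exists_set h2 hL a0
  lift X to Finset ℕ using x1
  have h : ∀ x ∈ X, x ∈ H := fun x hx => by
    obtain ⟨c, rfl⟩ := x3 x hx
    simpa [mul_comm] using H.nsmul_mem ha c
  exact ⟨X, x2, h, fun k => (x4 k).symm.trans (Len.ln_coe h k)⟩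

end Pool.Agent.Results.MP_bba460_co.AllLengthSets
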