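import Pool.Agent.Lib.MP_bba460_co.RigB

set_option autoImplicit false

namespace Pool.Agent.Results.MP_bba460_co.Rigid

open Pool.Agent.Lib.MP_bba460_co Pointwise

/-- For a numerical monoid `H` other than `ℕ`, every bijection of the family of finite subsets of
`H` containing `0` that respects sumsets is the identity. -/
theorem result (H : AddSubmonoid ℕ) (hfin : ((H : Set ℕ)ᶜ).Finite) (hne : H ≠ ⊤)
    (f : Finset ℕ → Finset ℕ)
    (hb : Set.BijOn f {X | 0 ∈ X ∧ ∀ x ∈ X, x ∈ H} {X | 0 ∈ X ∧ ∀ x ∈ X, x ∈ H})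
    (hadd : ∀ X Y : Finset ℕ, (0 ∈ X ∧ ∀ x ∈ X, x ∈ H) → (0 ∈ Y ∧ ∀ y ∈ Y, y ∈ H) →
      f (X + Y) = f X + f Y)
    (X : Finset ℕ) (hX : 0 ∈ X ∧ ∀ x ∈ X, x ∈ H) : f X = X := by
  obtain ⟨c, hc⟩ := hfin.bddAbove
  have h1 : 1 ∉ H := fun h => hne (eq_top_iff.2 fun n _ => by simpa using H.nsmul_mem h n)
  let g : Rig.PM H ≃+ Rig.PM H :=
    { hb.equiv f with map_add' := fun A B => Subtype.ext (hadd A.1 B.1 A.2 B.2) }
  exact congrArg Subtype.val (Rig.rigid (c := c + 1)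
    (fun n hn => by_contra fun h => absurd (hc h) (by omega)) h1 g ⟨X, hX⟩)

end Pool.Agent.Results.MP_bba460_co.Rigid
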