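import Pool.Agent.Lib.MP_bba460_co.Link

namespace Pool.Agent.Results.MP_bba460_co.TopWindow

open Pool.Agent.Lib.MP_bba460_co

/-- Unimodality of the atom counts when `l < 3m`, or when the window `(l - m, l]` contains an
element of `H` with at most one representation as an unordered sum of two nonzero elements. -/
theorem result : ∃ n0 : ℕ, ∀ (H : AddSubmonoid ℕ) (l : ℕ), n0 ≤ cnt H l →
    ((∀ a ∈ H, a ≠ 0 → l < 3 * a) ∨
      ∃ z ∈ H, 0 < z ∧ z ≤ l ∧ (∀ a ∈ H, a ≠ 0 → l < z + a) ∧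
        ∃ a0 : ℕ, ∀ a ∈ H, ∀ b ∈ H, a ≠ 0 → b ≠ 0 → a + b = z → a = a0 ∨ b = a0) →
    ∃ k ≤ l, (∀ i, i < k → alpha H i l ≤ alpha H (i + 1) l) ∧
      ∀ i, k ≤ i → i < l → alpha H (i + 1) l ≤ alpha H i l := by
  obtain ⟨n0, h⟩ := unimodal_of_prot
  refine ⟨n0 + 3, fun H l hn hw => ?_⟩
  have h3 : 3 ≤ (gr H l).card := by
    rw [← cnt_eq]
    omega
  have hp : Prot (gr H l) := by
    rcases hw with hw | ⟨z, hz, h0, hl, hw, a0, hu⟩
    · exact prot_of_lt h3 hw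
    · exact prot_of_window h3 (mem_gr.2 ⟨hz, h0, hl⟩) hw hu
  obtain ⟨k, hk, h1, h2⟩ := h H l (by omega) hp
  exact ⟨k, hk, h1, fun i hi _ => h2 i hi⟩

end Pool.Agent.Results.MP_bba460_co.TopWindow
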