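import Pool.Agent.Lib.MP_bba460_co.Link

namespace Pool.Agent.Results.MP_bba460_co.UniformRange

open Pool.Agent.Lib.MP_bba460_co

/-- Uniformly in `H`, the atom counts increase up to `n / 2` and decrease from `n / 2 + 1` to
`(1 - ε) n`, where `n` is the number of elements of `H` in `[1, l]`. -/
theorem result (ε : ℝ) (hε : 0 < ε) : ∃ n0 : ℕ, ∀ (H : AddSubmonoid ℕ) (l : ℕ), n0 ≤ cnt H l →
    (∀ k : ℕ, 2 * k ≤ cnt H l → alpha H k l ≤ alpha H (k + 1) l) ∧
      ∀ k : ℕ, cnt H l + 2 ≤ 2 * k → (k : ℝ) ≤ (1 - ε) * cnt H l →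
        alpha H (k + 1) l ≤ alpha H k l := by
  obtain ⟨n1, hup⟩ := alpha_up
  obtain ⟨n2, hdown⟩ := alpha_down hε
  exact ⟨n1 + n2, fun H l hn => ⟨hup H l (by omega),
    fun k hk hk' => hdown H l (by omega) k hk (by linarith)⟩⟩

end Pool.Agent.Results.MP_bba460_co.UniformRange
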